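import Pool.Agent.H.MP_696e10_co.C

namespace Pool.Agent.Results.MP_696e10_co.Yes

open Filter Topology Pool.Agent.H.MP_696e10_co

theorem result : Tendsto (fun n : ℕ => (Nat.card {G : SimpleGraph (Fin n) //
    ∃ P : Fin n → Fin n → List (Fin n), Consistent G P ∧ Irred P ∧ ¬ Metrizable G P} : ℝ) /
      (2 : ℝ) ^ (n.choose 2)) atTop (𝓝 1) :=
  final

end Pool.Agent.Results.MP_696e10_co.Yes
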